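import Pool.Agent.N873.F15.Dn
import Pool.Agent.Y797.FK.Disc
import Pool.Agent.N916.GB.Fin

/-!
# Counting imaginary quadratic fields
-/

set_option autoImplicit false

open Finset Filter Topology NumberField Module

open scoped Classical

namespace Pool.Agent.N873.F15.Dn

open Pool.Agent.N969.P15 (Qc)
open Pool.Agent.N916.GB (eta density_Qc)

/-- the number of `n ≤ X` with `Q n` -/
noncomputable def cnt (Q : ℕ → Prop) (X : ℕ) : ℕ := Nat.card {n : ℕ // 1 ≤ n ∧ n ≤ X ∧ Q n}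

lemma cnt_filter (Q : ℕ → Prop) [DecidablePred Q] (X : ℕ) :
    cnt Q X = ((Icc 1 X).filter Q).card := by
  unfold cnt
  rw [← Nat.card_eq_finsetCard]
  refine Nat.card_congr (Equiv.subtypeEquivRight fun n => ?_)
  rw [Finset.mem_filter, Finset.mem_Icc, and_assoc]

/-- `-n` is the discriminant of an imaginary quadratic field -/
def IsDisc (n : ℕ) : Prop := ∃ (K : Type) (_ : Field K) (_ : NumberField K),
  finrank ℚ K = 2 ∧ discr K = -(n : ℤ)

/-- the explicit condition -/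
def Fun (n : ℕ) : Prop := (Squarefree n ∧ n % 4 = 3) ∨
  ∃ m : ℕ, n = 4 * m ∧ Squarefree m ∧ (m % 4 = 1 ∨ m % 4 = 2)

lemma isDisc_iff {n : ℕ} (hn : 0 < n) : IsDisc n ↔ Fun n := by
  obtain ⟨h1, h2, h3⟩ := Pool.Agent.Y797.FK.t_DISC
  constructor
  · rintro ⟨K, _, _, hf, hd⟩
    obtain ⟨m, hm, hs⟩ := h2 K hf (by rw [hd]; omega)
    have h4 := h1 K hf m hm hs
    rw [hd] at h4
    split_ifs at h4 with h5
    · left
      have : n = m := by omega
      rw [this]
      exact ⟨hm, h5⟩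
    · right
      refine ⟨m, by omega, hm, ?_⟩
      have h6 : ¬ 4 ∣ m := by
        intro h
        have h7 := hm 2 (by rw [show 2 * 2 = 4 from rfl]; exact h)
        rw [Nat.isUnit_iff] at h7
        norm_num at h7
      omega
  · rintro (⟨h4, h5⟩ | ⟨m, h4, h5, h6⟩)
    · obtain ⟨K, i1, i2, hf, hs⟩ := h3 n h4
      refine ⟨K, i1, i2, hf, ?_⟩
      rw [h1 K hf n h4 hs, if_pos h5]
    · obtain ⟨K, i1, i2, hf, hs⟩ := h3 m h5
      refine ⟨K, i1, i2, hf, ?_⟩
      rw [h1 K hf m h5 hs, if_neg (by omega), h4]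
      push_cast
      ring

/-- the field with discriminant `-n`, `n ≡ 3` modulo `4` -/
lemma sqrt_of_disc {n : ℕ} (h4 : n % 4 = 3) (K : Type) [Field K] [NumberField K]
    (hf : finrank ℚ K = 2) (hd : discr K = -(n : ℤ)) : ∃ s : K, s ^ 2 = -(n : K) := by
  obtain ⟨h1, h2, -⟩ := Pool.Agent.Y797.FK.t_DISC
  obtain ⟨m, hm, hs⟩ := h2 K hf (by rw [hd]; omega)
  have h3 := h1 K hf m hm hs
  rw [hd] at h3
  split_ifs at h3 with h5
  · have : n = m := by omega
    rw [this]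
    exact hs
  · omega

lemma exists_field {n : ℕ} (hn : Squarefree n) (h4 : n % 4 = 3) : ∃ (K : Type) (_ : Field K)
    (_ : NumberField K), finrank ℚ K = 2 ∧ discr K = -(n : ℤ) :=
  (isDisc_iff (by omega)).2 (Or.inl ⟨hn, h4⟩)

lemma cnt_mul (Q : ℕ → Prop) (k X : ℕ) (hk : 0 < k) :
    cnt (fun n => ∃ m, n = k * m ∧ Q m) X = cnt Q (X / k) := by
  rw [cnt_filter, cnt_filter]
  symm
  refine Finset.card_bij (fun m _ => k * m) ?_ ?_ ?_
  · intro m hm
    rw [Finset.mem_filter, Finset.mem_Icc] at hm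
    rw [Finset.mem_filter, Finset.mem_Icc]
    obtain ⟨⟨h1, h2⟩, h3⟩ := hm
    rw [Nat.le_div_iff_mul_le hk, mul_comm] at h2
    exact ⟨⟨Nat.mul_pos hk h1, h2⟩, m, rfl, h3⟩
  · intro m _ m' _ h
    exact Nat.eq_of_mul_eq_mul_left hk h
  · intro n hn
    rw [Finset.mem_filter, Finset.mem_Icc] at hn
    obtain ⟨⟨h1, h2⟩, m, rfl, h3⟩ := hn
    refine ⟨m, ?_, rfl⟩
    rw [Finset.mem_filter, Finset.mem_Icc, Nat.le_div_iff_mul_le hk, mul_comm m]
    refine ⟨⟨?_, h2⟩, h3⟩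
    rcases Nat.eq_zero_or_pos m with h | h
    · rw [h, mul_zero] at h1
      omega
    · exact h

lemma cnt_or {P Q : ℕ → Prop} (h : ∀ n, P n → ¬ Q n) (X : ℕ) :
    cnt (fun n => P n ∨ Q n) X = cnt P X + cnt Q X := by
  rw [cnt_filter, cnt_filter, cnt_filter, ← Finset.card_union_of_disjoint]
  · congr 1
    ext n
    simp only [Finset.mem_filter, Finset.mem_union]
    tauto
  · rw [Finset.disjoint_filter]
    exact fun n _ h1 => h n h1

lemma cnt_congr {P Q : ℕ → Prop} (h : ∀ n, 0 < n → (P n ↔ Q n)) (X : ℕ) : cnt P X = cnt Q X := by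
  unfold cnt
  refine Nat.card_congr (Equiv.subtypeEquivRight fun n => ?_)
  constructor
  · rintro ⟨h1, h2, h3⟩
    exact ⟨h1, h2, (h n h1).1 h3⟩
  · rintro ⟨h1, h2, h3⟩
    exact ⟨h1, h2, (h n h1).2 h3⟩

lemma sf_eq (N r X : ℕ) : sf N r X = cnt (fun n => Squarefree n ∧ n % N = r) X := by
  unfold sf
  rw [cnt_filter]

lemma sf_dens' {N r : ℕ} (hN : 0 < N) (hr : r < N) (hc : r.Coprime N) :
    Tendsto (fun X : ℕ => (cnt (fun n => Squarefree n ∧ n % N = r) X : ℝ) / X) atTop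
      (𝓝 (6 / Real.pi ^ 2 / ep N / N)) := by
  refine (sf_dens hN hr hc).congr fun X => ?_
  rw [sf_eq]

/-- density of a multiple -/
lemma dens_mul {Q : ℕ → Prop} {k : ℕ} (hk : 0 < k) {c : ℝ}
    (h : Tendsto (fun X : ℕ => (cnt Q X : ℝ) / X) atTop (𝓝 c)) :
    Tendsto (fun X : ℕ => (cnt (fun n => ∃ m, n = k * m ∧ Q m) X : ℝ) / X) atTop (𝓝 (c / k)) := by
  have hdiv : Tendsto (fun X : ℕ => X / k) atTop atTop := Nat.tendsto_div_const_atTop hk.ne'
  have l1 := h.comp hdiv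
  have l2 : Tendsto (fun X : ℕ => ((X / k : ℕ) : ℝ) / X) atTop (𝓝 (1 / (k : ℝ))) := by
    have h1 : Tendsto (fun n : ℕ => (⌊(1 / (k : ℝ)) * (n : ℝ)⌋₊ : ℝ) / (n : ℝ)) atTop
        (𝓝 (1 / (k : ℝ))) :=
      (tendsto_nat_floor_mul_div_atTop (by positivity)).comp tendsto_natCast_atTop_atTop
    refine h1.congr fun n => ?_
    congr 2
    rw [one_div_mul_eq_div]
    exact Nat.floor_div_eq_div n k
  have l3 := l1.mul l2
  rw [mul_one_div] at l3
  refine l3.congr fun X => ?_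
  rw [cnt_mul Q k X hk]
  simp only [Function.comp_apply]
  by_cases h0 : X / k = 0
  · have hc : cnt Q 0 = 0 := by
      rw [cnt_filter]
      simp
    rw [h0, hc]
    simp
  · have h0' : ((X / k : ℕ) : ℝ) ≠ 0 := by exact_mod_cast h0
    rw [div_mul_div_cancel₀ h0']

lemma ep4 : ep 4 = 3 / 4 := by
  unfold ep
  have : (4 : ℕ).primeFactors = {2} := by decide +kernel
  rw [this, Finset.prod_singleton]
  norm_num

lemma ep60 : ep 60 = 16 / 25 := by
  unfold ep
  have : (60 : ℕ).primeFactors = {2, 3, 5} := by decide +kernel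
  rw [this, Finset.prod_insert (by decide), Finset.prod_insert (by decide), Finset.prod_singleton]
  norm_num

lemma ep2 : ep 2 = 3 / 4 := by
  unfold ep
  have : (2 : ℕ).primeFactors = {2} := by decide +kernel
  rw [this, Finset.prod_singleton]
  norm_num

/-- the fundamental discriminants have density `3 / π²` -/
theorem dens_disc : Tendsto (fun X : ℕ => (cnt IsDisc X : ℝ) / X) atTop (𝓝 (3 / Real.pi ^ 2)) := by
  have h1 := sf_dens' (N := 4) (r := 3) (by norm_num) (by norm_num) (by norm_num)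
  have h2 := dens_mul (k := 4) (by norm_num)
    (sf_dens' (N := 4) (r := 1) (by norm_num) (by norm_num) (by norm_num))
  have h3 := dens_mul (k := 8) (by norm_num)
    (sf_dens' (N := 2) (r := 1) (by norm_num) (by norm_num) (by norm_num))
  have h4 := (h1.add h2).add h3
  rw [ep4, ep2] at h4
  have e : 6 / Real.pi ^ 2 / (3 / 4) / ((4 : ℕ) : ℝ) + 6 / Real.pi ^ 2 / (3 / 4) / ((4 : ℕ) : ℝ) /
      ((4 : ℕ) : ℝ) + 6 / Real.pi ^ 2 / (3 / 4) / ((2 : ℕ) : ℝ) / ((8 : ℕ) : ℝ) =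
      3 / Real.pi ^ 2 := by
    push_cast
    ring
  rw [e] at h4
  refine h4.congr fun X => ?_
  rw [← add_div, ← add_div]
  congr 1
  rw [cnt_congr (fun n hn => isDisc_iff hn) X]
  have e1 : cnt Fun X = cnt (fun n => ((Squarefree n ∧ n % 4 = 3) ∨
      (∃ m, n = 4 * m ∧ (Squarefree m ∧ m % 4 = 1))) ∨
      (∃ m, n = 8 * m ∧ (Squarefree m ∧ m % 2 = 1))) X := by
    refine cnt_congr (fun n _ => ?_) X
    unfold Fun
    constructor
    · rintro (h | ⟨m, h5, h6, h7 | h7⟩)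
      · exact Or.inl (Or.inl h)
      · exact Or.inl (Or.inr ⟨m, h5, h6, h7⟩)
      · right
        obtain ⟨l, rfl⟩ : 2 ∣ m := by omega
        rw [Nat.squarefree_mul_iff] at h6
        exact ⟨l, by omega, h6.2.2, by omega⟩
    · rintro ((h | ⟨m, h5, h6, h7⟩) | ⟨m, h5, h6, h7⟩)
      · exact Or.inl h
      · exact Or.inr ⟨m, h5, h6, Or.inl h7⟩
      · refine Or.inr ⟨2 * m, by omega, ?_, Or.inr (by omega)⟩
        rw [Nat.squarefree_mul_iff]
        refine ⟨?_, Nat.prime_two.squarefree, h6⟩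
        rw [Nat.coprime_two_left]
        exact Nat.odd_iff.2 h7
  rw [e1, cnt_or, cnt_or]
  · push_cast
    rfl
  · rintro n ⟨-, h6⟩ ⟨m, h7, -⟩
    omega
  · rintro n (⟨-, h6⟩ | ⟨m, h7, h8, h9⟩) ⟨m', h10, h11, h12⟩
    · omega
    · omega

/-- the class -/
def Cl (n : ℕ) : Prop := Squarefree n ∧ (n % 60 = 23 ∨ n % 60 = 47)

theorem dens_cl : Tendsto (fun X : ℕ => (cnt Cl X : ℝ) / X) atTop
    (𝓝 (5 / (16 * Real.pi ^ 2))) := by
  have h1 := sf_dens' (N := 60) (r := 23) (by norm_num) (by norm_num) (by norm_num)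
  have h2 := sf_dens' (N := 60) (r := 47) (by norm_num) (by norm_num) (by norm_num)
  have h4 := h1.add h2
  rw [ep60] at h4
  have e : 6 / Real.pi ^ 2 / (16 / 25) / ((60 : ℕ) : ℝ) + 6 / Real.pi ^ 2 / (16 / 25) /
      ((60 : ℕ) : ℝ) = 5 / (16 * Real.pi ^ 2) := by
    have := Real.pi_ne_zero
    push_cast
    field_simp
    norm_num
  rw [e] at h4
  refine h4.congr fun X => ?_
  rw [← add_div]
  congr 1
  have e1 : cnt Cl X = cnt (fun n => (Squarefree n ∧ n % 60 = 23) ∨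
      (Squarefree n ∧ n % 60 = 47)) X := by
    refine cnt_congr (fun n _ => ?_) X
    unfold Cl
    tauto
  rw [e1, cnt_or]
  · push_cast
    rfl
  · rintro n ⟨-, h6⟩ ⟨-, h7⟩
    omega

/-- the ratio in the class -/
theorem ratio_cl : Tendsto (fun X : ℕ => (cnt (fun n => Cl n ∧ Qc n) X : ℝ) / (cnt Cl X : ℝ)) atTop
    (𝓝 eta) := by
  refine density_Qc.congr fun X => ?_
  have e1 := cnt_filter (fun n => Squarefree n ∧ (n % 60 = 23 ∨ n % 60 = 47) ∧ Qc n) X
  have e2 := cnt_filter (fun n => Squarefree n ∧ (n % 60 = 23 ∨ n % 60 = 47)) X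
  have e3 : cnt (fun n => Cl n ∧ Qc n) X =
      cnt (fun n => Squarefree n ∧ (n % 60 = 23 ∨ n % 60 = 47) ∧ Qc n) X := by
    refine cnt_congr (fun n _ => ?_) X
    unfold Cl
    tauto
  have e4 : cnt Cl X = cnt (fun n => Squarefree n ∧ (n % 60 = 23 ∨ n % 60 = 47)) X := rfl
  rw [e3, e4, e1, e2]

lemma five_pos : (0 : ℝ) < 5 / (16 * Real.pi ^ 2) := by positivity

/-- the density of the good fields -/
theorem dens_good : Tendsto (fun X : ℕ => (cnt (fun n => Cl n ∧ Qc n) X : ℝ) / X) atTop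
    (𝓝 (5 * eta / (16 * Real.pi ^ 2))) := by
  have h := ratio_cl.mul dens_cl
  have e : eta * (5 / (16 * Real.pi ^ 2)) = 5 * eta / (16 * Real.pi ^ 2) := by ring
  rw [e] at h
  have hpos := dens_cl.eventually (lt_mem_nhds five_pos)
  refine h.congr' ?_
  filter_upwards [hpos] with X hX
  have h0 : (cnt Cl X : ℝ) ≠ 0 := by
    intro h1
    rw [h1, zero_div] at hX
    exact lt_irrefl _ hX
  rw [div_mul_div_cancel₀ h0]

/-- **the proportion of the good fields among the imaginary quadratic fields** -/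
theorem ratio_all : Tendsto (fun X : ℕ => (cnt (fun n => Cl n ∧ Qc n) X : ℝ) /
    (cnt IsDisc X : ℝ)) atTop (𝓝 (5 * eta / 48)) := by
  have h := dens_good.div dens_disc (by positivity)
  have e : 5 * eta / (16 * Real.pi ^ 2) / (3 / Real.pi ^ 2) = 5 * eta / 48 := by
    have := Real.pi_ne_zero
    field_simp
    ring
  rw [e] at h
  refine h.congr' ?_
  filter_upwards [eventually_gt_atTop 0] with X hX
  have hX' : (X : ℝ) ≠ 0 := by exact_mod_cast hX.ne'
  simp only [Pi.div_apply]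
  rw [div_div_div_cancel_right₀ hX']

end Pool.Agent.N873.F15.Dn
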