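import Pool.Agent.Y293.SF.SQF

/-!
# The density of the squarefree integers in a class modulo `N`
-/

set_option autoImplicit false

open Finset Filter Topology

open scoped Classical

namespace Pool.Agent.N873.F15.Dn

open Pool.Agent.Y293.SF (mu abs_mu_le mu_zero indic_eq card_mult)

/-- the number of the squarefree integers of the class up to `X` -/
noncomputable def sf (N r X : ℕ) : ℕ :=
  ((Icc 1 X).filter fun n => Squarefree n ∧ n % N = r).card

/-- the number of the integers of the class divisible by `k` -/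
noncomputable def cd (N r k X : ℕ) : ℕ := ((Icc 1 X).filter fun n => k ∣ n ∧ n % N = r).card

lemma count_eq (N r X : ℕ) : (sf N r X : ℝ) = ∑' d : ℕ, mu d * (cd N r (d ^ 2) X : ℝ) := by
  rw [tsum_eq_sum (s := Finset.Icc 1 X)]
  · have h0 : (sf N r X : ℝ) = ∑ m ∈ (Icc 1 X).filter (fun n => n % N = r),
        if Squarefree m then (1 : ℝ) else 0 := by
      unfold sf
      rw [Finset.sum_ite, Finset.sum_const_zero, add_zero, Finset.sum_const, nsmul_eq_mul, mul_one,
        Finset.filter_filter]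
      congr 2
      ext n
      simp only [Finset.mem_filter]
      tauto
    rw [h0]
    have h1 : ∀ m ∈ (Icc 1 X).filter (fun n => n % N = r), (if Squarefree m then (1 : ℝ) else 0) =
        ∑ d ∈ Finset.Icc 1 X, if d ^ 2 ∣ m then mu d else 0 := by
      intro m hm
      rw [Finset.mem_filter, Finset.mem_Icc] at hm
      rw [indic_eq m (by omega)]
      apply Finset.sum_subset (Finset.Icc_subset_Icc_right hm.1.2)
      intro d hd hd'
      rw [if_neg]
      intro h
      apply hd'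
      rw [Finset.mem_Icc] at hd ⊢
      refine ⟨hd.1, ?_⟩
      have : d ∣ m := dvd_trans (dvd_pow_self d two_ne_zero) h
      exact Nat.le_of_dvd (by omega) this
    rw [Finset.sum_congr rfl h1, Finset.sum_comm]
    apply Finset.sum_congr rfl
    intro d hd
    rw [← Finset.sum_filter, Finset.sum_const, nsmul_eq_mul, mul_comm, Finset.filter_filter]
    unfold cd
    congr 3
    ext n
    simp only [Finset.mem_filter]
    tauto
  · intro d hd
    rcases Nat.eq_zero_or_pos d with h | h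
    · rw [h, mu_zero, zero_mul]
    · have h1 : X < d := by
        by_contra hc
        exact hd (Finset.mem_Icc.2 ⟨h, not_lt.1 hc⟩)
      have h2 : cd N r (d ^ 2) X = 0 := by
        unfold cd
        rw [Finset.card_eq_zero, Finset.filter_eq_empty_iff]
        rintro n hn ⟨h3, -⟩
        rw [Finset.mem_Icc] at hn
        have := Nat.le_of_dvd (by omega) h3
        nlinarith
      rw [h2]
      simp

lemma cd_le (N r k X : ℕ) (hk : 0 < k) : (cd N r k X : ℝ) ≤ X / k := by
  have h1 : cd N r k X ≤ ((Icc 1 X).filter fun n => k ∣ n).card := by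
    unfold cd
    refine Finset.card_le_card fun n hn => ?_
    rw [Finset.mem_filter] at hn ⊢
    exact ⟨hn.1, hn.2.1⟩
  rw [card_mult X k hk] at h1
  calc (cd N r k X : ℝ) ≤ ((X / k : ℕ) : ℝ) := by exact_mod_cast h1
    _ ≤ (X : ℝ) / k := Nat.cast_div_le

/-- one class modulo `m` -/
lemma one_class (m v X : ℕ) (hm : 0 < m) :
    |((((Icc 1 X).filter fun n => n ≡ v [MOD m]).card : ℕ) : ℝ) - X / m| ≤ 1 := by
  have h1 : (Icc 1 X) = Ioc 0 X := by
    ext n
    rw [Finset.mem_Icc, Finset.mem_Ioc]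
    omega
  rw [h1]
  have h2 := Nat.Ioc_filter_modEq_card 0 X hm v
  have e : ((Ioc 0 X).filter fun n => n ≡ v [MOD m]).card =
      (@Finset.filter ℕ (fun n => n ≡ v [MOD m]) (fun n => Nat.decEq _ _) (Ioc 0 X)).card := by
    congr
  have hmq : (0 : ℚ) < m := by exact_mod_cast hm
  have h3 : ⌊(((0 : ℕ) : ℚ) - v) / (m : ℚ)⌋ ≤ ⌊((X : ℚ) - v) / (m : ℚ)⌋ := by
    apply Int.floor_le_floor
    gcongr
    exact_mod_cast Nat.zero_le X
  rw [max_eq_left (by linarith)] at h2
  have f1 := Int.floor_le (((X : ℚ) - v) / (m : ℚ))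
  have f2 := Int.lt_floor_add_one (((X : ℚ) - v) / (m : ℚ))
  have f3 := Int.floor_le ((((0 : ℕ) : ℚ) - v) / (m : ℚ))
  have f4 := Int.lt_floor_add_one ((((0 : ℕ) : ℚ) - v) / (m : ℚ))
  have e2 : ((X : ℚ) - v) / (m : ℚ) - (((0 : ℕ) : ℚ) - v) / (m : ℚ) = X / m := by
    rw [← sub_div]
    congr 1
    push_cast
    ring
  have h4 : ((((Ioc 0 X).filter fun n => n ≡ v [MOD m]).card : ℕ) : ℚ) =
      ⌊((X : ℚ) - v) / (m : ℚ)⌋ - ⌊(((0 : ℕ) : ℚ) - v) / (m : ℚ)⌋ := by
    rw [e]
    exact_mod_cast congrArg (fun z : ℤ => (z : ℚ)) h2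
  have h5 : |((((Ioc 0 X).filter fun n => n ≡ v [MOD m]).card : ℕ) : ℚ) - X / m| ≤ 1 := by
    rw [h4, abs_le]
    constructor <;> linarith
  have h6 : |((((((Ioc 0 X).filter fun n => n ≡ v [MOD m]).card : ℕ) : ℚ) - X / m : ℚ) : ℝ)| ≤ 1 := by
    exact_mod_cast h5
  push_cast at h6
  exact h6

lemma cd_lim {N r : ℕ} (hN : 0 < N) (hr : r < N) (hc : r.Coprime N) {d : ℕ} (hd : 0 < d) :
    Tendsto (fun X : ℕ => (cd N r (d ^ 2) X : ℝ) / X) atTop
      (𝓝 (if d.Coprime N then 1 / ((N : ℝ) * (d : ℝ) ^ 2) else 0)) := by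
  split_ifs with h
  · have hk : 0 < d ^ 2 := by positivity
    have hcop : Nat.Coprime N (d ^ 2) := (Nat.Coprime.pow_left 2 h).symm
    obtain ⟨v, hv1, hv2⟩ := Nat.chineseRemainder hcop r 0
    have hcd : ∀ X, cd N r (d ^ 2) X =
        ((Icc 1 X).filter fun n => n ≡ v [MOD N * d ^ 2]).card := by
      intro X
      unfold cd
      congr 1
      refine Finset.filter_congr fun n _ => ?_
      rw [← Nat.modEq_and_modEq_iff_modEq_mul hcop]
      constructor
      · rintro ⟨h1, h2⟩
        refine ⟨?_, ?_⟩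
        · refine Nat.ModEq.trans ?_ hv1.symm
          show n % N = r % N
          rw [h2, Nat.mod_eq_of_lt hr]
        · exact ((Nat.modEq_zero_iff_dvd).2 h1).trans hv2.symm
      · rintro ⟨h1, h2⟩
        refine ⟨(Nat.modEq_zero_iff_dvd).1 (h2.trans hv2), ?_⟩
        have h3 : n % N = r % N := h1.trans hv1
        rw [h3, Nat.mod_eq_of_lt hr]
    rw [tendsto_iff_norm_sub_tendsto_zero]
    refine squeeze_zero' (Eventually.of_forall fun _ => norm_nonneg _) ?_
      (tendsto_one_div_atTop_nhds_zero_nat (𝕜 := ℝ))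
    filter_upwards [eventually_ge_atTop 1] with X hX
    have hX0 : (0 : ℝ) < X := by exact_mod_cast hX
    have h1 := one_class (N * d ^ 2) v X (Nat.mul_pos hN hk)
    rw [← hcd] at h1
    rw [Real.norm_eq_abs]
    have hN0 : (N : ℝ) ≠ 0 := by exact_mod_cast hN.ne'
    have hd0 : (d : ℝ) ≠ 0 := by exact_mod_cast hd.ne'
    have e1 : (cd N r (d ^ 2) X : ℝ) / X - 1 / ((N : ℝ) * (d : ℝ) ^ 2) =
        ((cd N r (d ^ 2) X : ℝ) - (X : ℝ) / ((N * d ^ 2 : ℕ) : ℝ)) / X := by
      push_cast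
      field_simp
    rw [e1, abs_div, abs_of_pos hX0]
    exact div_le_div_of_nonneg_right h1 hX0.le
  · have hz : ∀ X, cd N r (d ^ 2) X = 0 := by
      intro X
      unfold cd
      rw [Finset.card_eq_zero, Finset.filter_eq_empty_iff]
      rintro n - ⟨h1, h2⟩
      obtain ⟨p, hp, hpd, hpN⟩ := Nat.Prime.not_coprime_iff_dvd.1 h
      have h3 : p ∣ n := (hpd.trans (dvd_pow_self d two_ne_zero)).trans h1
      have h4 : p ∣ r := by
        rw [← h2]
        exact (Nat.dvd_mod_iff hpN).2 h3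
      exact Nat.Prime.not_coprime_iff_dvd.2 ⟨p, hp, h4, hpN⟩ hc
    simp only [hz, Nat.cast_zero, zero_div]
    exact tendsto_const_nhds

/-- `∏_{p ∣ N} (1 - p⁻²)` -/
noncomputable def ep (N : ℕ) : ℝ := ∏ p ∈ N.primeFactors, (1 - 1 / (p : ℝ) ^ 2)

lemma ep_pos (N : ℕ) : 0 < ep N := by
  unfold ep
  refine Finset.prod_pos fun p hp => ?_
  have h2 := (Nat.prime_of_mem_primeFactors hp).two_le
  have h3 : (2 : ℝ) ≤ p := by exact_mod_cast h2
  have h4 : 1 / (p : ℝ) ^ 2 < 1 := by
    rw [div_lt_one (by positivity)]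
    nlinarith
  linarith

lemma mu_sum {N : ℕ} (hN : 0 < N) : HasSum (fun d : ℕ => mu d *
    (if d.Coprime N then 1 / (d : ℝ) ^ 2 else 0)) (6 / Real.pi ^ 2 / ep N) := by
  have : NeZero N := ⟨hN.ne'⟩
  have h2 : (1 : ℝ) < (2 : ℂ).re := by norm_num
  have hL := DirichletCharacter.LSeries.mul_mu_eq_one (1 : DirichletCharacter ℂ N) h2
  rw [← DirichletCharacter.LFunction_eq_LSeries (1 : DirichletCharacter ℂ N) h2] at hL
  have e1 := DirichletCharacter.LFunctionTrivChar_eq_mul_riemannZeta (N := N) (s := 2) (by norm_num)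
  have e1' : (1 : DirichletCharacter ℂ N).LFunction 2 =
      (∏ p ∈ N.primeFactors, (1 - (p : ℂ) ^ (-2 : ℂ))) * riemannZeta 2 := e1
  rw [e1', riemannZeta_two] at hL
  have hep : (∏ p ∈ N.primeFactors, (1 - (p : ℂ) ^ (-2 : ℂ))) = ((ep N : ℝ) : ℂ) := by
    unfold ep
    rw [Complex.ofReal_prod]
    refine Finset.prod_congr rfl fun p _ => ?_
    rw [Complex.cpow_neg, show ((p : ℂ) ^ (2 : ℂ)) = (p : ℂ) ^ (2 : ℕ) by norm_cast]
    push_cast
    rw [one_div]
  rw [hep] at hL
  have hs : LSeriesSummable ((fun n : ℕ => (1 : DirichletCharacter ℂ N) n) *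
      (fun n => ((ArithmeticFunction.moebius n : ℤ) : ℂ))) 2 :=
    DirichletCharacter.LSeriesSummable_mul (1 : DirichletCharacter ℂ N)
      (ArithmeticFunction.LSeriesSummable_moebius_iff.mpr h2)
  have hsum := hs.LSeriesHasSum
  have hpi : (Real.pi : ℂ) ≠ 0 := by exact_mod_cast Real.pi_ne_zero
  have hep0 : ((ep N : ℝ) : ℂ) ≠ 0 := by exact_mod_cast (ep_pos N).ne'
  have hval : LSeries ((fun n : ℕ => (1 : DirichletCharacter ℂ N) n) *
      (fun n => ((ArithmeticFunction.moebius n : ℤ) : ℂ))) 2 =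
      ((6 / Real.pi ^ 2 / ep N : ℝ) : ℂ) := by
    push_cast
    rw [eq_div_iff hep0, eq_div_iff (pow_ne_zero 2 hpi)]
    linear_combination 6 * hL
  rw [hval] at hsum
  refine Complex.hasSum_ofReal.mp ?_
  unfold LSeriesHasSum at hsum
  refine hsum.congr_fun ?_
  intro d
  rcases eq_or_ne d 0 with rfl | hd
  · simp [mu]
  · rw [LSeries.term_of_ne_zero hd]
    unfold mu
    rw [show ((d : ℂ) ^ (2 : ℂ)) = (d : ℂ) ^ (2 : ℕ) by norm_cast, Pi.mul_apply]
    split_ifs with h
    · rw [MulChar.one_apply ((ZMod.isUnit_iff_coprime d N).2 h)]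
      push_cast
      ring
    · rw [MulChar.map_nonunit _ (fun h' => h ((ZMod.isUnit_iff_coprime d N).1 h'))]
      push_cast
      ring

/-- **The density of the squarefree integers in a class prime to `N`.** -/
theorem sf_dens {N r : ℕ} (hN : 0 < N) (hr : r < N) (hc : r.Coprime N) :
    Tendsto (fun X : ℕ => (sf N r X : ℝ) / X) atTop (𝓝 (6 / Real.pi ^ 2 / ep N / N)) := by
  have hN0 : (N : ℝ) ≠ 0 := by exact_mod_cast hN.ne'
  have hval : (6 / Real.pi ^ 2 / ep N / N : ℝ) = ∑' d : ℕ, mu d *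
      (if d.Coprime N then 1 / ((N : ℝ) * (d : ℝ) ^ 2) else 0) := by
    rw [← (mu_sum hN).tsum_eq, ← tsum_div_const]
    refine tsum_congr fun d => ?_
    split_ifs
    · rcases eq_or_ne d 0 with rfl | hd
      · rw [mu_zero]; simp
      · have hd0 : (d : ℝ) ≠ 0 := by exact_mod_cast hd
        field_simp
    · simp
  rw [hval]
  have key : Tendsto (fun X : ℕ => ∑' d : ℕ, mu d * ((cd N r (d ^ 2) X : ℝ) / X)) atTop
      (𝓝 (∑' d : ℕ, mu d * (if d.Coprime N then 1 / ((N : ℝ) * (d : ℝ) ^ 2) else 0))) := by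
    refine tendsto_tsum_of_dominated_convergence (bound := fun d : ℕ => 1 / (d : ℝ) ^ 2)
      (Real.summable_one_div_nat_pow.mpr one_lt_two) ?_ ?_
    · intro d
      rcases Nat.eq_zero_or_pos d with h | h
      · subst h
        simp only [mu_zero, zero_mul]
        exact tendsto_const_nhds
      · exact (cd_lim hN hr hc h).const_mul _
    · filter_upwards [eventually_gt_atTop 0] with X hX d
      have hX' : (0 : ℝ) < X := by exact_mod_cast hX
      rcases Nat.eq_zero_or_pos d with h | h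
      · subst h
        rw [mu_zero, zero_mul, norm_zero]
        positivity
      rw [norm_mul, Real.norm_eq_abs, Real.norm_eq_abs]
      have h1 : |(cd N r (d ^ 2) X : ℝ) / X| ≤ 1 / (d : ℝ) ^ 2 := by
        rw [abs_of_nonneg (by positivity)]
        have h2 := cd_le N r (d ^ 2) X (by positivity)
        rw [div_le_iff₀ hX', one_div_mul_eq_div]
        push_cast at h2
        exact h2
      calc |mu d| * |(cd N r (d ^ 2) X : ℝ) / X| ≤ 1 * (1 / (d : ℝ) ^ 2) :=
            mul_le_mul (abs_mu_le d) h1 (abs_nonneg _) zero_le_one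
        _ = 1 / (d : ℝ) ^ 2 := one_mul _
  refine key.congr fun X => ?_
  rw [count_eq, ← tsum_div_const]
  exact tsum_congr fun d => by ring

end Pool.Agent.N873.F15.Dn
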