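import Pool.Agent.N875.X15.Asm
import Pool.Agent.N969.P15.Fin
import Pool.Agent.Y577.LU.L1

/-!
# The values of the `L`-functions of `X_0(15)` and of its twist, and the area of the period lattice
-/

set_option autoImplicit false
set_option linter.unusedSectionVars false

open Complex

namespace Pool.Agent.N873.F15.Va

open Pool.Agent.N969.P15 (Cls0 S_DIAG S_PAR cc un Fp Qc)
open Pool.Agent.N974.MF (E15 S_LAT II exists_L integrals II_zero_im Symb15)
open Pool.Agent.N975.Sym (SymbM)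
open Pool.Agent.Y700 (IsL)
open Pool.Agent.W97.MT (ap)
open Pool.Agent.Y687 (rr SS mem_rr)
open Pool.Agent.N875.X15 (WN value15 symbM)

/-- the area of a period parallelogram of a rectangular lattice -/
theorem area {L Λ : PeriodPair} {Op Om : ℝ} (hOp : 0 < Op) (hOm : 0 < Om)
    (hL : ∀ w : ℂ, w ∈ L.lattice ↔ ∃ a b : ℤ, w = a * Op + b * Om * Complex.I)
    (h2 : Λ.g₂ = L.g₂) (h3 : Λ.g₃ = L.g₃) :
    2 * |((starRingEnd ℂ) Λ.ω₁ * Λ.ω₂).im| = 2 * (Op * Om) := by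
  have hlat := Pool.Agent.Y577.LU.lat_unique Λ L h2 h3
  have hm : ∀ w : ℂ, w ∈ Λ.lattice ↔ ∃ a b : ℤ, w = a * Op + b * Om * Complex.I := by
    intro w
    rw [hlat]
    exact hL w
  obtain ⟨a, b, ha⟩ := (hm _).1 Λ.ω₁_mem_lattice
  obtain ⟨c, e, hc⟩ := (hm _).1 Λ.ω₂_mem_lattice
  have v1 : ((1 : ℤ) : ℂ) * Op + ((0 : ℤ) : ℂ) * Om * I ∈ Λ.lattice := (hm _).2 ⟨1, 0, rfl⟩
  have v2 : ((0 : ℤ) : ℂ) * Op + ((1 : ℤ) : ℂ) * Om * I ∈ Λ.lattice := (hm _).2 ⟨0, 1, rfl⟩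
  rw [PeriodPair.mem_lattice] at v1 v2
  obtain ⟨m, n, h1⟩ := v1
  obtain ⟨k, l, h2⟩ := v2
  rw [ha, hc] at h1 h2
  have cc : ∀ x y x' y' : ℤ, (x : ℂ) * Op + (y : ℂ) * Om * I = (x' : ℂ) * Op + (y' : ℂ) * Om * I →
      x = x' ∧ y = y' := by
    intro x y x' y' h
    have r := congrArg Complex.re h
    have i := congrArg Complex.im h
    simp at r i
    refine ⟨?_, ?_⟩
    · rcases r with r | r
      · exact_mod_cast r
      · exact absurd r hOp.ne'
    · rcases i with i | i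
      · exact_mod_cast i
      · exact absurd i hOm.ne'
  obtain ⟨q1, q2⟩ := cc (m * a + n * c) (m * b + n * e) 1 0 (by
    rw [← h1]; push_cast; ring)
  obtain ⟨q3, q4⟩ := cc (k * a + l * c) (k * b + l * e) 0 1 (by
    rw [← h2]; push_cast; ring)
  have hdet : (a * e - b * c) * (m * l - n * k) = 1 := by
    linear_combination (k * b + l * e) * q1 + q4 - (k * a + l * c) * q2
  have hunit : |a * e - b * c| = 1 :=
    Int.isUnit_iff_abs_eq.1 (IsUnit.of_mul_eq_one _ hdet)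
  have him : ((starRingEnd ℂ) Λ.ω₁ * Λ.ω₂).im = ((a * e - b * c : ℤ) : ℝ) * (Op * Om) := by
    rw [ha, hc]
    simp only [map_add, map_mul, Complex.add_im, Complex.mul_im, Complex.add_re,
      Complex.mul_re, Complex.intCast_re, Complex.intCast_im, Complex.conj_re, Complex.conj_im,
      Complex.I_re, Complex.I_im, Complex.ofReal_re, Complex.ofReal_im]
    push_cast
    ring
  rw [him, abs_mul, abs_of_nonneg (mul_pos hOp hOm).le, ← Int.cast_abs, hunit]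
  norm_num

/-- the `L`-function of the curve -/
theorem exists_L1 (hlat : S_LAT) : ∃ f : ℂ → ℂ, IsL E15 f ∧ f 1 = II 0 := by
  obtain ⟨g, hg1, hg2, hg3⟩ := exists_L hlat (q := 1) (by norm_num) (1 : DirichletCharacter ℂ 1)
    DirichletCharacter.isPrimitive_one_level_one
  refine ⟨g, ⟨hg1, fun s hs => ?_⟩, ?_⟩
  · refine (congrArg (fun g => HasProd g _) (funext fun p => ?_)).mp (hg2 s hs)
    have hp := p.2
    have hp0 : ((p : ℕ) : ℂ) ≠ 0 := Nat.cast_ne_zero.2 hp.ne_zero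
    have hpz : Prime (((p : ℕ) : ℤ)) := Nat.prime_iff_prime_int.1 hp
    have hΔ : ((p : ℕ) : ℤ) ∣ E15.Δ ↔ (p : ℕ) ∣ 15 := by
      have e : E15.Δ = ((15 : ℕ) : ℤ) ^ 4 := by decide
      rw [e]
      constructor
      · intro h
        exact_mod_cast hpz.dvd_of_dvd_pow h
      · intro h
        exact dvd_pow (by exact_mod_cast h) (by norm_num)
    have h1 : (1 : DirichletCharacter ℂ 1) (((p : ℕ) : ZMod 1)) = 1 := by
      have : (((p : ℕ) : ZMod 1)) = 1 := Subsingleton.elim _ _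
      rw [this, map_one]
    rw [h1]
    by_cases h15 : (p : ℕ) ∣ 15
    · rw [if_pos h15, if_pos (hΔ.2 h15)]
      ring
    · rw [if_neg h15, if_neg (fun h => h15 (hΔ.1 h)), one_pow, mul_one, mul_one,
        Pool.Agent.Y687.p_cpow hp.ne_zero]
  · have e1 : gaussSum (1 : DirichletCharacter ℂ 1)⁻¹ (ZMod.stdAddChar (N := 1)) = 1 := by
      unfold gaussSum
      rw [Fintype.sum_eq_single (0 : ZMod 1) (fun x hx => absurd (Subsingleton.elim x 0) hx)]
      have h0 : (0 : ZMod 1) = 1 := Subsingleton.elim _ _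
      rw [AddChar.map_zero_eq_one, mul_one, h0, map_one]
    rw [e1, one_mul] at hg3
    rw [hg3, Fintype.sum_eq_single (1 : (ZMod 1)ˣ) (fun x hx => absurd (Subsingleton.elim x 1) hx)]
    have h2 : (1 : DirichletCharacter ℂ 1)⁻¹ (((1 : (ZMod 1)ˣ) : ZMod 1)) = 1 := by
      rw [Units.val_one, map_one]
    have h3 : ((((1 : (ZMod 1)ˣ) : ZMod 1).val : ℕ) : ℚ) / ((1 : ℕ) : ℚ) = 0 := by
      have : (((1 : (ZMod 1)ˣ) : ZMod 1)).val = 0 := by decide
      rw [this]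
      norm_num
    rw [h2, h3, one_mul]

/-- the value at the cusp zero -/
theorem II_zero_val (L : PeriodPair) (Op Om : ℝ) (hOm : 0 < Om)
    (g2 : L.g₂ = 481 / 12) (g3 : L.g₃ = 4879 / 216)
    (hL : ∀ w : ℂ, w ∈ L.lattice ↔ ∃ a b : ℤ, w = a * Op + b * Om * Complex.I) :
    ∃ m0 : ℤ, 4 * II 0 = m0 * Op ∧ Odd m0 := by
  obtain ⟨-, k15, k3, k5, k1, k4⟩ := integrals L g2 g3
  obtain ⟨z1, z2, z4, zw, -⟩ := k15 0 (by simp) (by simp)
  have z0 := II_zero_im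
  obtain ⟨a, b, hab⟩ := (hL _).1 z4
  have h1 := congrArg Complex.im hab
  have h2 : b = 0 := by
    simp [z0] at h1
    rcases h1 with h1 | h1
    · exact h1
    · exact absurd h1 hOm.ne'
  refine ⟨a, by rw [hab, h2]; simp, ?_⟩
  rw [← Int.not_even_iff_odd]
  rintro ⟨k, hk⟩
  apply z2
  refine (hL _).2 ⟨k, 0, ?_⟩
  have h3 : (4 : ℂ) * II 0 = (k + k) * Op := by
    rw [hab, h2, hk]; push_cast; ring
  linear_combination (1 / 2 : ℂ) * h3

/-- **The central values.** -/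
theorem value {n : ℕ} (h : Cls0 n) : ∃ (Op Om : ℝ) (L : PeriodPair), 0 < Op ∧ 0 < Om ∧
    L.g₂ = 481 / 12 ∧ L.g₃ = 4879 / 216 ∧
    (∀ w : ℂ, w ∈ L.lattice ↔ ∃ a b : ℤ, w = a * Op + b * Om * Complex.I) ∧
    ∃ (f g : ℂ → ℂ) (z y : ℤ), IsL E15 f ∧ IsL (WN (-(n : ℤ))) g ∧ Odd z ∧ (Odd y ↔ Qc n) ∧
      f 1 * g 1 * (√(n : ℝ) : ℝ) = z * 4 ^ n.primeFactors.card * y ^ 2 / 72 * (Op * Om) := by
  obtain ⟨hs, h60⟩ := id h
  have h4 : n % 4 = 3 := by omega
  have hn0 : (0 : ℝ) < n := by exact_mod_cast (by omega : 0 < n)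
  have hsn : (0 : ℝ) < √(n : ℝ) := Real.sqrt_pos.2 hn0
  have h15 : Nat.Coprime n 15 := (Pool.Agent.N975.Sym.cls0_cop h).symm
  have hlat : S_LAT := Pool.Agent.N975.Lat15.s_lat
  obtain ⟨L, Op, Om, hOp, hOm, g2, g3, hL⟩ := id hlat
  obtain ⟨sp, sm, hsy, hneg, hper, hsym⟩ :=
    Pool.Agent.N875.X15.Sy.exists_symbL L Op Om hOp hOm g2 g3 hL
  obtain ⟨g, ε, hg, hε, hval⟩ := value15 hlat hsy hneg hper hs h4 h15
  obtain ⟨f, hf, hf1⟩ := exists_L1 hlat
  obtain ⟨m0, hm0, hm0o⟩ := II_zero_val L Op Om hOm g2 g3 hL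
  obtain ⟨y, hy, hyQ⟩ := Pool.Agent.N871.P15.s_PAR n h
  have hM : SymbM sm := symbM hsym
  have h12 : sm (1 / 4) = 2 * sm (1 / 3) := hsym.s14
  have hodd : Odd (sm (1 / 3)) := by
    refine hsym.odd3 _ ?_ ?_
    · norm_num
    · norm_num
  have hsum : 18 * SS sm n n = sm (1 / 4) * cc n ^ 2 :=
    Pool.Agent.N975.Sym.sum_symb_eq Pool.Agent.N969.P15.f_DIAG hM h
  have hεo : Odd ε := by rcases hε with rfl | rfl <;> decide
  refine ⟨Op, Om, L, hOp, hOm, g2, g3, hL, f, g, m0 * (ε * sm (1 / 3)), y, hf, hg,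
    hm0o.mul (hεo.mul hodd), hyQ, ?_⟩
  have h9 : (9 : ℝ) * (SS sm n n : ℝ) = (sm (1 / 3) : ℝ) * ((cc n : ℤ) : ℝ) ^ 2 := by
    have e : 9 * SS sm n n = sm (1 / 3) * cc n ^ 2 := by
      rw [h12] at hsum
      have e2 : 2 * (9 * SS sm n n) = 2 * (sm (1 / 3) * cc n ^ 2) := by linarith
      linarith
    exact_mod_cast e
  have hII : II 0 = ((m0 * Op / 4 : ℝ) : ℂ) := by
    push_cast
    linear_combination (1 / 4 : ℂ) * hm0
  have key : (m0 * Op / 4) * (ε * SS sm n n * Om / (2 * √(n : ℝ))) * √(n : ℝ) =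
      (m0 * (ε * sm (1 / 3)) : ℝ) * 4 ^ n.primeFactors.card * (y : ℝ) ^ 2 / 72 * (Op * Om) := by
    rw [hy] at h9
    push_cast at h9
    have e4 : ((4 : ℝ)) ^ n.primeFactors.card = (2 ^ n.primeFactors.card) ^ 2 := by
      rw [← pow_mul, mul_comm, pow_mul]
      norm_num
    rw [e4]
    field_simp
    linear_combination 8 * (m0 : ℝ) * ε * h9
  rw [hf1, hII, hval]
  have := congrArg (fun x : ℝ => (x : ℂ)) key
  push_cast at this ⊢
  exact this

end Pool.Agent.N873.F15.Va
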