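import Pool.Agent.N873.F15.Fu

/-!
# Few integers have a bounded number of prime factors
-/

set_option autoImplicit false

open Finset Filter Topology

open scoped Classical

namespace Pool.Agent.N873.F15.Dn

/-- the weight `2^(-#{p ∈ P : p ∣ n})` -/
noncomputable def fw (P : Finset ℕ) (n : ℕ) : ℝ := ∏ p ∈ P, if p ∣ n then (1 / 2 : ℝ) else 1

/-- the mean value of the weight -/
noncomputable def cw (P : Finset ℕ) : ℝ := ∏ p ∈ P, (1 - 1 / (2 * (p : ℝ)))

lemma fw_nonneg (P : Finset ℕ) (n : ℕ) : 0 ≤ fw P n := by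
  unfold fw
  refine Finset.prod_nonneg fun p _ => ?_
  split_ifs <;> norm_num

lemma mean (P : Finset ℕ) (hP : ∀ p ∈ P, p.Prime) : ∃ C : ℝ, ∀ X : ℕ,
    |∑ n ∈ Icc 1 X, fw P n - cw P * X| ≤ C := by
  induction P using Finset.induction_on with
  | empty =>
    refine ⟨0, fun X => ?_⟩
    have : ∀ n, fw ∅ n = 1 := fun n => Finset.prod_empty
    simp only [this, cw, Finset.prod_empty]
    simp
  | insert q P hq ih =>
    obtain ⟨C, hC⟩ := ih fun p hp => hP p (Finset.mem_insert_of_mem hp)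
    have hqp := hP q (Finset.mem_insert_self q P)
    have hq0 : (0 : ℝ) < q := by exact_mod_cast hqp.pos
    have hC0 : 0 ≤ C := le_trans (abs_nonneg _) (hC 0)
    refine ⟨C + C + |cw P|, fun X => ?_⟩
    have e1 : ∀ n, fw (insert q P) n = fw P n - (1 / 2) * (if q ∣ n then fw P n else 0) := by
      intro n
      unfold fw
      rw [Finset.prod_insert hq]
      split_ifs <;> ring
    have e2 : ∑ n ∈ Icc 1 X, (if q ∣ n then fw P n else 0) = ∑ m ∈ Icc 1 (X / q), fw P m := by
      rw [← Finset.sum_filter]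
      symm
      refine Finset.sum_bij (fun m _ => q * m) ?_ ?_ ?_ ?_
      · intro m hm
        rw [Finset.mem_Icc, Nat.le_div_iff_mul_le hqp.pos, mul_comm] at hm
        rw [Finset.mem_filter, Finset.mem_Icc]
        exact ⟨⟨Nat.mul_pos hqp.pos hm.1, hm.2⟩, dvd_mul_right _ _⟩
      · intro m _ m' _ h
        exact Nat.eq_of_mul_eq_mul_left hqp.pos h
      · intro n hn
        rw [Finset.mem_filter, Finset.mem_Icc] at hn
        obtain ⟨⟨h1, h2⟩, m, rfl⟩ := hn
        refine ⟨m, ?_, rfl⟩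
        rw [Finset.mem_Icc, Nat.le_div_iff_mul_le hqp.pos, mul_comm m]
        refine ⟨?_, h2⟩
        rcases Nat.eq_zero_or_pos m with h | h
        · rw [h, mul_zero] at h1
          omega
        · exact h
      · intro m _
        unfold fw
        refine Finset.prod_congr rfl fun p hp => ?_
        have hpp := hP p (Finset.mem_insert_of_mem hp)
        have hne : p ≠ q := by
          rintro rfl
          exact hq hp
        have : p ∣ m ↔ p ∣ q * m := by
          rw [hpp.dvd_mul]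
          constructor
          · exact Or.inr
          · rintro (h | h)
            · exact absurd ((Nat.prime_dvd_prime_iff_eq hpp hqp).1 h) hne
            · exact h
        simp only [this]
    have e3 : ∑ n ∈ Icc 1 X, fw (insert q P) n =
        ∑ n ∈ Icc 1 X, fw P n - (1 / 2) * ∑ m ∈ Icc 1 (X / q), fw P m := by
      rw [← e2, Finset.mul_sum, ← Finset.sum_sub_distrib]
      exact Finset.sum_congr rfl fun n _ => e1 n
    have e4 : cw (insert q P) = cw P - cw P / (2 * q) := by
      unfold cw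
      rw [Finset.prod_insert hq]
      ring
    have h1 := hC X
    have h2 := hC (X / q)
    have h3 : |((X / q : ℕ) : ℝ) - X / q| ≤ 1 := by
      have h4 : ((X / q : ℕ) : ℝ) ≤ (X : ℝ) / q := Nat.cast_div_le
      have h5 : (X : ℝ) / q < ((X / q : ℕ) : ℝ) + 1 := by
        rw [div_lt_iff₀ hq0]
        have := (Nat.div_lt_iff_lt_mul hqp.pos).mp (Nat.lt_succ_self (X / q))
        exact_mod_cast this
      rw [abs_le]
      constructor <;> linarith
    rw [e3, e4]
    have e5 : ∑ n ∈ Icc 1 X, fw P n - 1 / 2 * ∑ m ∈ Icc 1 (X / q), fw P m -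
        (cw P - cw P / (2 * q)) * X = (∑ n ∈ Icc 1 X, fw P n - cw P * X) -
        1 / 2 * (∑ m ∈ Icc 1 (X / q), fw P m - cw P * ((X / q : ℕ) : ℝ)) -
        1 / 2 * (cw P * (((X / q : ℕ) : ℝ) - X / q)) := by
      field_simp
      ring
    rw [e5]
    have h6 : |cw P * (((X / q : ℕ) : ℝ) - X / q)| ≤ |cw P| := by
      rw [abs_mul]
      exact mul_le_of_le_one_right (abs_nonneg _) h3
    rw [abs_le] at h1 h2 h6 ⊢
    have h7 := abs_nonneg (cw P)
    constructor <;> linarith

lemma cw_le (P : Finset ℕ) (hP : ∀ p ∈ P, p.Prime) :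
    0 ≤ cw P ∧ cw P ≤ Real.exp (-(1 / 2) * ∑ p ∈ P, 1 / (p : ℝ)) := by
  have hpos : ∀ p ∈ P, (0 : ℝ) ≤ 1 - 1 / (2 * (p : ℝ)) := by
    intro p hp
    have h2 : (2 : ℝ) ≤ p := by exact_mod_cast (hP p hp).two_le
    have : 1 / (2 * (p : ℝ)) ≤ 1 := by
      rw [div_le_one (by positivity)]
      linarith
    linarith
  refine ⟨Finset.prod_nonneg hpos, ?_⟩
  unfold cw
  rw [Finset.mul_sum, Real.exp_sum]
  refine Finset.prod_le_prod hpos fun p hp => ?_
  have h1 := Real.add_one_le_exp (-(1 / 2) * (1 / (p : ℝ)))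
  have e : 1 - 1 / (2 * (p : ℝ)) = -(1 / 2) * (1 / (p : ℝ)) + 1 := by
    have hp0 : (p : ℝ) ≠ 0 := by exact_mod_cast (hP p hp).ne_zero
    field_simp
    ring
  rw [e]
  exact h1

/-- there are finite sets of primes with small mean value -/
lemma exists_cw {ε : ℝ} (hε : 0 < ε) : ∃ P : Finset ℕ, (∀ p ∈ P, p.Prime) ∧ cw P < ε := by
  have h1 := Nat.Primes.not_summable_one_div
  have h2 : ¬ Summable (fun p : Nat.Primes => 1 / ((p : ℕ) : ℝ)) := h1
  by_contra hcon
  push Not at hcon
  apply h2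
  refine summable_of_sum_le (c := 2 * (-Real.log ε)) (fun p => by positivity) fun u => ?_
  have hP : ∀ p ∈ u.map ⟨fun p : Nat.Primes => (p : ℕ), Subtype.coe_injective⟩, p.Prime := by
    intro p hp
    rw [Finset.mem_map] at hp
    obtain ⟨q, -, rfl⟩ := hp
    exact q.2
  have h4 := hcon _ hP
  obtain ⟨-, h5⟩ := cw_le _ hP
  have h6 := h4.trans h5
  rw [Finset.sum_map] at h6
  have h7 := Real.log_le_log hε h6
  rw [Real.log_exp] at h7
  have h8 : ∑ x ∈ u, 1 / (((⟨fun p : Nat.Primes => (p : ℕ), Subtype.coe_injective⟩ :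
      Nat.Primes ↪ ℕ) x : ℕ) : ℝ) = ∑ x ∈ u, 1 / ((x : ℕ) : ℝ) := rfl
  rw [h8] at h7
  linarith

/-- few integers have less than `B` prime factors -/
theorem few (B : ℕ) : Tendsto (fun X : ℕ => (cnt (fun n => n.primeFactors.card < B) X : ℝ) / X)
    atTop (𝓝 0) := by
  rw [Metric.tendsto_atTop]
  intro ε hε
  obtain ⟨P, hP, hc⟩ := exists_cw (ε := ε / (2 * 2 ^ B)) (by positivity)
  obtain ⟨C, hC⟩ := mean P hP
  obtain ⟨N, hN⟩ := exists_nat_gt (2 * 2 ^ B * C / ε)
  refine ⟨N + 1, fun X hX => ?_⟩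
  have hX0 : (0 : ℝ) < X := by
    have : 0 < X := by omega
    exact_mod_cast this
  have hNX : (N : ℝ) < X := by exact_mod_cast (by omega : N < X)
  rw [Real.dist_eq, sub_zero, abs_of_nonneg (by positivity), div_lt_iff₀ hX0, cnt_filter]
  have h1 : (((Icc 1 X).filter fun n : ℕ => n.primeFactors.card < B).card : ℝ) ≤
      ∑ n ∈ Icc 1 X, 2 ^ B * fw P n := by
    rw [Finset.card_filter]
    push_cast
    refine Finset.sum_le_sum fun n hn => ?_
    split_ifs with h
    · have hn0 : n ≠ 0 := by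
        rw [Finset.mem_Icc] at hn
        omega
      have h2 : fw P n = (1 / 2 : ℝ) ^ (P.filter fun p => p ∣ n).card := by
        unfold fw
        rw [Finset.prod_ite, Finset.prod_const, Finset.prod_const_one, mul_one]
      have h3 : (P.filter fun p => p ∣ n).card ≤ B := by
        refine le_trans (Finset.card_le_card fun p hp => ?_) h.le
        rw [Finset.mem_filter] at hp
        exact Nat.mem_primeFactors.2 ⟨hP p hp.1, hp.2, hn0⟩
      rw [h2]
      have h4 : (1 / 2 : ℝ) ^ B ≤ (1 / 2 : ℝ) ^ (P.filter fun p => p ∣ n).card :=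
        pow_le_pow_of_le_one (by norm_num) (by norm_num) h3
      calc (1 : ℝ) = 2 ^ B * (1 / 2) ^ B := by rw [← mul_pow]; norm_num
        _ ≤ _ := by gcongr
    · have := fw_nonneg P n
      positivity
  rw [← Finset.mul_sum] at h1
  have h5 := (abs_le.1 (hC X)).2
  have h6 : (2 : ℝ) ^ B * ∑ n ∈ Icc 1 X, fw P n ≤ 2 ^ B * (cw P * X + C) := by
    gcongr
    linarith
  have h7 : (2 : ℝ) ^ B * (cw P * X) < ε / 2 * X := by
    have : (2 : ℝ) ^ B * (cw P * X) < 2 ^ B * (ε / (2 * 2 ^ B) * X) := by gcongr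
    refine this.trans_eq ?_
    field_simp
  have h8 : (2 : ℝ) ^ B * C < ε / 2 * X := by
    have h9 := hN.trans hNX
    rw [div_lt_iff₀ hε] at h9
    linarith
  linarith

/-- a condition on the number of prime factors does not change a density -/
theorem dens_many {Q : ℕ → Prop} {c : ℝ} (h : Tendsto (fun X : ℕ => (cnt Q X : ℝ) / X) atTop (𝓝 c))
    (B : ℕ) : Tendsto (fun X : ℕ => (cnt (fun n => Q n ∧ B ≤ n.primeFactors.card) X : ℝ) / X) atTop
      (𝓝 c) := by
  have h1 : ∀ X, cnt (fun n => Q n ∧ B ≤ n.primeFactors.card) X ≤ cnt Q X := by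
    intro X
    rw [cnt_filter, cnt_filter]
    refine Finset.card_le_card fun n hn => ?_
    rw [Finset.mem_filter] at hn ⊢
    exact ⟨hn.1, hn.2.1⟩
  have h2 : ∀ X, cnt Q X ≤ cnt (fun n => Q n ∧ B ≤ n.primeFactors.card) X +
      cnt (fun n => n.primeFactors.card < B) X := by
    intro X
    rw [cnt_filter, cnt_filter, cnt_filter]
    refine le_trans (Finset.card_le_card fun n hn => ?_) (Finset.card_union_le _ _)
    rw [Finset.mem_filter] at hn
    rw [Finset.mem_union, Finset.mem_filter, Finset.mem_filter]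
    rcases lt_or_ge n.primeFactors.card B with h3 | h3
    · exact Or.inr ⟨hn.1, h3⟩
    · exact Or.inl ⟨hn.1, hn.2, h3⟩
  refine tendsto_of_tendsto_of_tendsto_of_le_of_le' (g := fun X : ℕ => (cnt Q X : ℝ) / X -
    (cnt (fun n => n.primeFactors.card < B) X : ℝ) / X) ?_ h ?_ ?_
  · have := h.sub (few B)
    rwa [sub_zero] at this
  · refine Eventually.of_forall fun X => ?_
    rw [← sub_div]
    refine div_le_div_of_nonneg_right ?_ (Nat.cast_nonneg X)
    have h4 : (cnt Q X : ℝ) ≤ cnt (fun n => Q n ∧ B ≤ n.primeFactors.card) X +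
      cnt (fun n => n.primeFactors.card < B) X := by exact_mod_cast h2 X
    linarith
  · refine Eventually.of_forall fun X => ?_
    exact div_le_div_of_nonneg_right (by exact_mod_cast h1 X) (Nat.cast_nonneg X)

end Pool.Agent.N873.F15.Dn
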